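import Pool.Agent.H5.FR2.Stmts

/-!
# Project URB, module HNA: the first step of the Harder-Narasimhan filtration of a tuple
-/

set_option autoImplicit false

namespace Pool.Agent.H5.FR2

open Finset Pool.Agent.H5.FR Pool.Agent.H80

/-- restriction to the coordinates outside `Z₀` -/
private noncomputable def hna_res {Z : Type} (Z₀ : Finset Z) :
    (Z → ℂ) →ₗ[ℂ] ({z // z ∉ Z₀} → ℂ) := LinearMap.funLeft ℂ ℂ Subtype.val

private lemma hna_res_apply {Z : Type} (Z₀ : Finset Z) (v : Z → ℂ) (z : {z // z ∉ Z₀}) :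
    hna_res Z₀ v z = v z.1 := rfl

private lemma hna_res_surj {Z : Type} (Z₀ : Finset Z) : Function.Surjective (hna_res Z₀) :=
  LinearMap.funLeft_surjective_of_injective ℂ ℂ _ Subtype.val_injective

private lemma hna_finrank_comap {Z : Type} [Fintype Z] [DecidableEq Z] (Z₀ : Finset Z)
    (K : Submodule ℂ ({z // z ∉ Z₀} → ℂ)) :
    Module.finrank ℂ (K.comap (hna_res Z₀)) = Z₀.card + Module.finrank ℂ K := by
  have h1 := LinearMap.finrank_range_add_finrank_ker
    ((hna_res Z₀).domRestrict (K.comap (hna_res Z₀)))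
  have h2 : LinearMap.range ((hna_res Z₀).domRestrict (K.comap (hna_res Z₀))) = K := by
    rw [LinearMap.range_domRestrict, Submodule.map_comap_eq, LinearMap.range_eq_top.2
      (hna_res_surj Z₀), top_inf_eq]
  have hle : LinearMap.ker (hna_res Z₀) ≤ K.comap (hna_res Z₀) := by
    intro v hv
    rw [LinearMap.mem_ker] at hv
    rw [Submodule.mem_comap, hv]
    exact K.zero_mem
  have h3 : LinearMap.ker ((hna_res Z₀).domRestrict (K.comap (hna_res Z₀))) =
      (LinearMap.ker (hna_res Z₀)).comap (K.comap (hna_res Z₀)).subtype := by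
    ext v
    simp [LinearMap.mem_ker]
  have h4 : Module.finrank ℂ (LinearMap.ker ((hna_res Z₀).domRestrict
      (K.comap (hna_res Z₀)))) = Module.finrank ℂ (LinearMap.ker (hna_res Z₀)) := by
    rw [h3]
    exact (Submodule.comapSubtypeEquivOfLe hle).finrank_eq
  have h5 := LinearMap.finrank_range_add_finrank_ker (hna_res Z₀)
  rw [LinearMap.range_eq_top.2 (hna_res_surj Z₀), finrank_top, Module.finrank_fintype_fun_eq_card,
    Module.finrank_fintype_fun_eq_card] at h5
  have h6 : Fintype.card {z // z ∉ Z₀} = Fintype.card Z - Z₀.card := by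
    rw [Fintype.card_subtype_compl]
    simp
  have h7 : Z₀.card ≤ Fintype.card Z := Finset.card_le_univ _
  rw [h2, h4] at h1
  omega

private lemma hna_img {n : ℕ} {X Y : Type} [Fintype X] [DecidableEq X] [Fintype Y] [DecidableEq Y]
    (A : Fin n → Matrix X Y ℂ) (P : Matrix X X ℂ) (Q : Matrix Y Y ℂ)
    (W : Submodule ℂ (Y → ℂ)) :
    img (fun a => P * A a * Q) W = (img A (W.map (Matrix.mulVecLin Q))).map
      (Matrix.mulVecLin P) := by
  unfold img
  rw [Submodule.map_iSup]
  refine iSup_congr fun a => ?_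
  rw [Matrix.mulVecLin_mul, Matrix.mulVecLin_mul, Submodule.map_comp, Submodule.map_comp]

private lemma hna_inj {X : Type} [Fintype X] [DecidableEq X] {P : Matrix X X ℂ} (hP : IsUnit P) :
    Function.Injective (Matrix.mulVecLin P) := by
  intro v w h
  exact Matrix.mulVec_injective_of_isUnit hP h

private lemma hna_finrank_map {X : Type} [Fintype X] [DecidableEq X] {P : Matrix X X ℂ}
    (hP : IsUnit P) (W : Submodule ℂ (X → ℂ)) :
    Module.finrank ℂ (W.map (Matrix.mulVecLin P)) = Module.finrank ℂ W :=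
  (Submodule.equivMapOfInjective _ (hna_inj hP) W).finrank_eq.symm

theorem hna_thm (hBAS : BASStmt) : HNAStmt := by
  intro n X Y _ _ _ _ _ A
  classical
  -- the minimal slope
  obtain ⟨U, hU0, hmin⟩ : ∃ U : Submodule ℂ (Y → ℂ), U ≠ ⊥ ∧ ∀ W : Submodule ℂ (Y → ℂ),
      W ≠ ⊥ → (Module.finrank ℂ (img A U) : ℚ) / Module.finrank ℂ U ≤
        (Module.finrank ℂ (img A W) : ℚ) / Module.finrank ℂ W := by
    let T : Set (ℕ × ℕ) := {p | ∃ W : Submodule ℂ (Y → ℂ), W ≠ ⊥ ∧
      p = (Module.finrank ℂ (img A W), Module.finrank ℂ W)}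
    have hfin : T.Finite := by
      refine ((Set.finite_Iic (Module.finrank ℂ (X → ℂ))).prod
        (Set.finite_Iic (Module.finrank ℂ (Y → ℂ)))).subset ?_
      rintro p ⟨W, -, rfl⟩
      exact ⟨Submodule.finrank_le _, Submodule.finrank_le _⟩
    have hne : T.Nonempty := ⟨_, ⊤, top_ne_bot, rfl⟩
    obtain ⟨p, ⟨U, hU, hp⟩, hm⟩ := Set.exists_min_image T (fun p => (p.1 : ℚ) / p.2) hfin hne
    refine ⟨U, hU, fun W hW => ?_⟩
    have := hm _ ⟨W, hW, rfl⟩
    rw [hp] at this
    exact this
  have hUpos : 0 < Module.finrank ℂ U :=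
    Nat.pos_of_ne_zero fun h => hU0 (Submodule.finrank_eq_zero.1 h)
  have hmin' : ∀ W : Submodule ℂ (Y → ℂ), Module.finrank ℂ (img A U) * Module.finrank ℂ W ≤
      Module.finrank ℂ U * Module.finrank ℂ (img A W) := by
    intro W
    by_cases hW : W = ⊥
    · subst hW
      simp
    · have hWpos : 0 < Module.finrank ℂ W :=
        Nat.pos_of_ne_zero fun h => hW (Submodule.finrank_eq_zero.1 h)
      have h := hmin W hW
      rw [div_le_div_iff₀ (by exact_mod_cast hUpos) (by exact_mod_cast hWpos)] at h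
      have h' : Module.finrank ℂ (img A U) * Module.finrank ℂ W ≤
        Module.finrank ℂ (img A W) * Module.finrank ℂ U := by exact_mod_cast h
      rw [mul_comm (Module.finrank ℂ U)]
      exact h'
  obtain ⟨Q, Y₀, hQ, hY₀, hQU⟩ := hBAS Y U
  obtain ⟨P', X₀, hP', hX₀, hPU⟩ := hBAS X (img A U)
  obtain ⟨P'u, rfl⟩ := hP'
  set P : Matrix X X ℂ := ((P'u⁻¹ : (Matrix X X ℂ)ˣ) : Matrix X X ℂ) with hPdef
  have hP : IsUnit P := Units.isUnit _
  set A' : Fin n → Matrix X Y ℂ := fun a => P * A a * Q with hA'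
  have hmin2 : ∀ W : Submodule ℂ (Y → ℂ), X₀.card * Module.finrank ℂ W ≤
      Y₀.card * Module.finrank ℂ (img A' W) := by
    intro W
    rw [hA', hna_img, hna_finrank_map hP, hX₀, hY₀, ← hna_finrank_map hQ W]
    exact hmin' _
  have hzero : ∀ a i j, i ∉ X₀ → j ∈ Y₀ → A' a i j = 0 := by
    intro a i j hi hj
    have h1 : Q.mulVec (Pi.single j 1) ∈ U := by
      rw [hQU]
      intro k hk
      have : k ≠ j := fun h => hk (h ▸ hj)
      simp [this]
    have h2 : (A a).mulVec (Q.mulVec (Pi.single j 1)) ∈ img A U := by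
      refine (le_iSup (fun a => U.map (Matrix.mulVecLin (A a))) a) ?_
      exact ⟨_, h1, rfl⟩
    have h3 : (A a).mulVec (Q.mulVec (Pi.single j 1)) =
        (P'u : Matrix X X ℂ).mulVec ((A' a).mulVec (Pi.single j 1)) := by
      rw [hA', Matrix.mulVec_mulVec, Matrix.mulVec_mulVec, ← Matrix.mul_assoc, ← Matrix.mul_assoc,
        hPdef, Units.mul_inv, Matrix.one_mul]
    rw [h3, hPU] at h2
    have h4 := h2 i hi
    rw [Matrix.mulVec_single_one] at h4
    exact h4
  refine ⟨P, Q, X₀, Y₀, hP, hQ, ?_, hzero, ?_, ?_⟩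
  · rw [← Finset.card_pos, hY₀]
    exact hUpos
  · intro U'
    -- extension by zero
    let eY : ({j // j ∈ Y₀} → ℂ) →ₗ[ℂ] (Y → ℂ) :=
      { toFun := fun v j => if h : j ∈ Y₀ then v ⟨j, h⟩ else 0
        map_add' := by
          intro v w; ext j; by_cases h : j ∈ Y₀ <;> simp [h]
        map_smul' := by
          intro c v; ext j; by_cases h : j ∈ Y₀ <;> simp [h] }
    let eX : ({i // i ∈ X₀} → ℂ) →ₗ[ℂ] (X → ℂ) :=
      { toFun := fun v i => if h : i ∈ X₀ then v ⟨i, h⟩ else 0
        map_add' := by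
          intro v w; ext j; by_cases h : j ∈ X₀ <;> simp [h]
        map_smul' := by
          intro c v; ext j; by_cases h : j ∈ X₀ <;> simp [h] }
    have heY : Function.Injective eY := by
      intro v w h
      ext ⟨j, hj⟩
      have := congrFun h j
      simpa [eY, hj] using this
    have hW := hmin2 (U'.map eY)
    rw [← (Submodule.equivMapOfInjective _ heY U').finrank_eq] at hW
    rw [Fintype.card_coe, Fintype.card_coe]
    refine hW.trans (Nat.mul_le_mul_left _ ?_)
    have hle : img A' (U'.map eY) ≤ (img (fun a => (A' a).submatrix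
        (Subtype.val : {i // i ∈ X₀} → X) (Subtype.val : {j // j ∈ Y₀} → Y)) U').map eX := by
      refine iSup_le fun a => ?_
      rintro _ ⟨_, ⟨u, hu, rfl⟩, rfl⟩
      refine ⟨((A' a).submatrix (Subtype.val : {i // i ∈ X₀} → X)
        (Subtype.val : {j // j ∈ Y₀} → Y)).mulVec u, ?_, ?_⟩
      · refine (le_iSup (fun a => U'.map (Matrix.mulVecLin ((A' a).submatrix
          (Subtype.val : {i // i ∈ X₀} → X) (Subtype.val : {j // j ∈ Y₀} → Y)))) a) ?_
        exact ⟨u, hu, rfl⟩
      · ext i
        have hsum : (A' a).mulVec (eY u) i = ∑ j : {j // j ∈ Y₀}, A' a i j.1 * u j := by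
          rw [Matrix.mulVec, dotProduct, ← Finset.sum_subset (Finset.subset_univ Y₀),
            ← Finset.sum_attach Y₀, ← Finset.univ_eq_attach]
          · refine Finset.sum_congr rfl fun j _ => ?_
            simp [eY, j.2]
          · intro j _ hj
            simp [eY, hj]
        rw [Matrix.mulVecLin_apply, hsum]
        by_cases hi : i ∈ X₀
        · simp [eX, hi, Matrix.mulVec, dotProduct]
        · simp only [eX, LinearMap.coe_mk, AddHom.coe_mk, hi, dite_false]
          refine (Finset.sum_eq_zero fun j _ => ?_).symm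
          rw [hzero a i j.1 hi j.2, zero_mul]
    exact (Submodule.finrank_mono hle).trans (Submodule.finrank_map_le _ _)
  · intro U'
    have hW := hmin2 (U'.comap (hna_res Y₀))
    rw [hna_finrank_comap] at hW
    have hle : img A' (U'.comap (hna_res Y₀)) ≤ (img (fun a => (A' a).submatrix
        (Subtype.val : {i // i ∉ X₀} → X) (Subtype.val : {j // j ∉ Y₀} → Y)) U').comap
        (hna_res X₀) := by
      refine iSup_le fun a => ?_
      rintro _ ⟨v, hv, rfl⟩
      rw [Submodule.mem_comap]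
      refine (le_iSup (fun a => U'.map (Matrix.mulVecLin ((A' a).submatrix
          (Subtype.val : {i // i ∉ X₀} → X) (Subtype.val : {j // j ∉ Y₀} → Y)))) a) ?_
      refine ⟨hna_res Y₀ v, hv, ?_⟩
      ext i
      rw [hna_res_apply, Matrix.mulVecLin_apply, Matrix.mulVecLin_apply, Matrix.mulVec,
        Matrix.mulVec, dotProduct, dotProduct, ← Finset.sum_compl_add_sum Y₀]
      have h0 : ∑ j ∈ Y₀, A' a i.1 j * v j = 0 :=
        Finset.sum_eq_zero fun j hj => by rw [hzero a i.1 j i.2 hj, zero_mul]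
      rw [h0, add_zero]
      rw [Finset.sum_subtype (Y₀ᶜ) (p := fun j => j ∉ Y₀) (fun j => Finset.mem_compl)
        (fun j => A' a i.1 j * v j)]
      rfl
    have h2 := Submodule.finrank_mono hle
    rw [hna_finrank_comap] at h2
    have h3 := hW.trans (Nat.mul_le_mul_left _ h2)
    rw [Nat.mul_add, Nat.mul_add, Nat.mul_comm Y₀.card X₀.card] at h3
    exact Nat.le_of_add_le_add_left h3

end Pool.Agent.H5.FR2
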